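import Pool.Agent.Helper34.PU.Goals

/-!
Packet DRC for MP_8060f4_co: dependent random choice.
-/

set_option autoImplicit false

open Finset
open scoped Classical

namespace Pool.Agent.Helper80.PU

open Pool.Agent.Helper34.PU

lemma card_small (A : Type) [Fintype A] (d : ℕ) :
    ((univ.filter (fun S : Finset A => S.card ≤ d)).card : ℝ) ≤
      ((Fintype.card A : ℝ) + 1) ^ d := by
  let f : (Fin d → Option A) → Finset A := fun v => univ.filter (fun e => ∃ k, v k = some e)
  have hsub : univ.filter (fun S : Finset A => S.card ≤ d) ⊆ (univ : Finset (Fin d → Option A)).image f := by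
    intro S hS
    have hc : S.card ≤ d := (Finset.mem_filter.mp hS).2
    rw [Finset.mem_image]
    refine ⟨fun k => if h : (k : ℕ) < S.card then some ((S.equivFin.symm ⟨k, h⟩ : S) : A)
      else none, Finset.mem_univ _, ?_⟩
    ext e
    simp only [f, Finset.mem_filter, Finset.mem_univ, true_and]
    constructor
    · rintro ⟨k, hk⟩
      by_cases h : (k : ℕ) < S.card
      · rw [dif_pos h] at hk
        rw [← Option.some.inj hk]
        exact Subtype.prop _
      · rw [dif_neg h] at hk
        exact absurd hk (by simp)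
    · intro he
      refine ⟨⟨(S.equivFin ⟨e, he⟩ : ℕ), lt_of_lt_of_le (S.equivFin ⟨e, he⟩).2 hc⟩, ?_⟩
      rw [dif_pos (S.equivFin ⟨e, he⟩).2]
      simp
  have h1 : (univ.filter (fun S : Finset A => S.card ≤ d)).card ≤
      Fintype.card (Fin d → Option A) :=
    le_trans (Finset.card_le_card hsub) (le_trans Finset.card_image_le (le_of_eq rfl))
  have h2 : Fintype.card (Fin d → Option A) = (Fintype.card A + 1) ^ d := by
    rw [Fintype.card_fun, Fintype.card_option, Fintype.card_fin]
  rw [h2] at h1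
  exact_mod_cast h1

theorem drc : DrcStmt := by
  intro A W _ _ _ G p τ t d hp hp1 hτ hG hmain
  set m : ℝ := (Fintype.card W : ℝ) with hm
  set a : ℝ := (Fintype.card A : ℝ) with ha
  have hmpos : 0 < m := by
    rw [hm]; exact_mod_cast Fintype.card_pos
  have ha0 : 0 ≤ a := by rw [ha]; exact Nat.cast_nonneg _
  have hpt : 0 < p ^ t := pow_pos hp t
  have hpt1 : p ^ t ≤ 1 := pow_le_one₀ hp.le hp1
  have hτ1 : τ ≤ 1 := by
    by_contra hcon
    push Not at hcon
    have h1 : (1 : ℝ) ≤ τ ^ t := one_le_pow₀ hcon.le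
    have h2 : (1 : ℝ) ≤ (a + 1) ^ d := one_le_pow₀ (by linarith)
    have h3 : (1 : ℝ) ≤ (a + 1) ^ d * τ ^ t := by nlinarith
    linarith
  by_cases hA : Fintype.card A = 0
  · refine ⟨∅, ?_, ?_⟩
    · rw [ha, hA]; simp
    · intro S hS _
      have hSe : S = ∅ := Finset.subset_empty.mp hS
      subst hSe
      simp only [Finset.notMem_empty, false_imp_iff, implies_true, Finset.filter_true,
        Finset.card_univ]
      rw [← hm]
      nlinarith
  have hapos : 0 < a := by
    rw [ha]; exact_mod_cast Nat.pos_of_ne_zero hA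
  -- the random sets
  let Aw : (Fin t → W) → Finset A := fun w => univ.filter (fun e => ∀ k, (e, w k) ∈ G)
  let Nb : A → Finset W := fun e => univ.filter (fun w => (e, w) ∈ G)
  let CN : Finset A → Finset W := fun S => univ.filter (fun w => ∀ e ∈ S, (e, w) ∈ G)
  let B : Finset (Finset A) := univ.filter (fun S => S.card ≤ d ∧ ((CN S).card : ℝ) < τ * m)
  let bad : (Fin t → W) → Prop := fun w => ∃ S ∈ B, S ⊆ Aw w
  have hN : (Fintype.card (Fin t → W) : ℝ) = m ^ t := by
    rw [Fintype.card_fun, Fintype.card_fin, hm]; push_cast; rfl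
  -- sum of degrees
  have hdeg : (G.card : ℝ) = ∑ e : A, ((Nb e).card : ℝ) := by
    have h1 : G.card = ∑ e : A, (Nb e).card := by
      have h2 := Finset.card_eq_sum_card_fiberwise (s := G) (t := (univ : Finset A))
        (f := Prod.fst) (fun x _ => Finset.mem_coe.mpr (Finset.mem_univ _))
      rw [h2]
      apply Finset.sum_congr rfl
      intro e _
      apply Finset.card_bij (fun x _ => x.2)
      · intro x hx
        obtain ⟨hx1, hx2⟩ := Finset.mem_filter.mp hx
        simp only [Nb, Finset.mem_filter, Finset.mem_univ, true_and]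
        rw [← hx2]; exact hx1
      · intro x hx y hy hxy
        obtain ⟨hx1, hx2⟩ := Finset.mem_filter.mp hx
        obtain ⟨hy1, hy2⟩ := Finset.mem_filter.mp hy
        exact Prod.ext (hx2.trans hy2.symm) hxy
      · intro w hw
        simp only [Nb, Finset.mem_filter, Finset.mem_univ, true_and] at hw
        exact ⟨(e, w), Finset.mem_filter.mpr ⟨hw, rfl⟩, rfl⟩
    rw [h1]; push_cast; rfl
  -- sum over w of |A(w)|
  have hsum : ∑ w : Fin t → W, ((Aw w).card : ℝ) = ∑ e : A, ((Nb e).card : ℝ) ^ t := by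
    have h1 : ∀ w : Fin t → W, ((Aw w).card : ℝ) =
        ∑ e : A, (if ∀ k, (e, w k) ∈ G then (1 : ℝ) else 0) := by
      intro w
      simp only [Aw]
      rw [Finset.card_filter]; push_cast; rfl
    rw [Finset.sum_congr rfl (fun w _ => h1 w), Finset.sum_comm]
    apply Finset.sum_congr rfl
    intro e _
    have h2 : (∑ w : Fin t → W, (if ∀ k, (e, w k) ∈ G then (1 : ℝ) else 0)) =
        ((univ.filter (fun w : Fin t → W => ∀ k, (e, w k) ∈ G)).card : ℝ) := by
      rw [Finset.card_filter]; push_cast; rfl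
    rw [h2]
    have h3 : univ.filter (fun w : Fin t → W => ∀ k, (e, w k) ∈ G) =
        Fintype.piFinset (fun _ : Fin t => Nb e) := by
      ext w
      simp [Nb, Fintype.mem_piFinset]
    rw [h3, Fintype.card_piFinset_const]
    push_cast; rfl
  have hlow : a * (p * m) ^ t ≤ ∑ w : Fin t → W, ((Aw w).card : ℝ) := by
    rw [hsum]
    have h1 := Real.pow_arith_mean_le_arith_mean_pow (univ : Finset A) (fun _ => a⁻¹)
      (fun e => ((Nb e).card : ℝ)) (fun _ _ => inv_nonneg.mpr ha0)
      (by rw [Finset.sum_const, Finset.card_univ, nsmul_eq_mul, ← ha]; exact mul_inv_cancel₀ hapos.ne')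
      (fun e _ => Nat.cast_nonneg _) t
    rw [← Finset.mul_sum, ← Finset.mul_sum, ← hdeg] at h1
    have h2 : p * m ≤ a⁻¹ * (G.card : ℝ) := by
      rw [inv_mul_eq_div, le_div_iff₀ hapos]
      linarith [hG]
    have h3 : (p * m) ^ t ≤ (a⁻¹ * (G.card : ℝ)) ^ t :=
      pow_le_pow_left₀ (by positivity) h2 t
    have h4 := le_trans h3 h1
    calc a * (p * m) ^ t ≤ a * (a⁻¹ * ∑ e : A, ((Nb e).card : ℝ) ^ t) :=
          mul_le_mul_of_nonneg_left h4 ha0
      _ = ∑ e : A, ((Nb e).card : ℝ) ^ t := by
          rw [← mul_assoc, mul_inv_cancel₀ hapos.ne', one_mul]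
  -- number of bad w
  have hbadS : ∀ S ∈ B, ((univ.filter (fun w : Fin t → W => S ⊆ Aw w)).card : ℝ) ≤ (τ * m) ^ t := by
    intro S hS
    have hS2 : ((CN S).card : ℝ) < τ * m := (Finset.mem_filter.mp hS).2.2
    have h3 : univ.filter (fun w : Fin t → W => S ⊆ Aw w) =
        Fintype.piFinset (fun _ : Fin t => CN S) := by
      ext w
      simp only [CN, Aw, Finset.mem_filter, Finset.mem_univ, true_and, Fintype.mem_piFinset]
      constructor
      · intro h k e he
        exact (Finset.mem_filter.mp (h he)).2 k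
      · intro h e he
        exact Finset.mem_filter.mpr ⟨Finset.mem_univ _, fun k => h k e he⟩
    rw [h3, Fintype.card_piFinset_const]
    push_cast
    exact pow_le_pow_left₀ (Nat.cast_nonneg _) hS2.le t
  have hbad : ((univ.filter (fun w : Fin t → W => bad w)).card : ℝ) ≤ p ^ t / 2 * m ^ t := by
    have h1 : univ.filter (fun w : Fin t → W => bad w) ⊆
        B.biUnion (fun S => univ.filter (fun w : Fin t → W => S ⊆ Aw w)) := by
      intro w hw
      obtain ⟨S, hS, hSA⟩ := (Finset.mem_filter.mp hw).2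
      exact Finset.mem_biUnion.mpr ⟨S, hS, Finset.mem_filter.mpr ⟨Finset.mem_univ _, hSA⟩⟩
    have h2 : ((univ.filter (fun w : Fin t → W => bad w)).card : ℝ) ≤
        ∑ S ∈ B, ((univ.filter (fun w : Fin t → W => S ⊆ Aw w)).card : ℝ) := by
      have := le_trans (Finset.card_le_card h1) Finset.card_biUnion_le
      exact_mod_cast this
    have h3 : ∑ S ∈ B, ((univ.filter (fun w : Fin t → W => S ⊆ Aw w)).card : ℝ) ≤
        (B.card : ℝ) * (τ * m) ^ t := by
      have := Finset.sum_le_card_nsmul B
        (fun S => ((univ.filter (fun w : Fin t → W => S ⊆ Aw w)).card : ℝ)) ((τ * m) ^ t) hbadS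
      rw [nsmul_eq_mul] at this
      exact this
    have h4 : (B.card : ℝ) ≤ (a + 1) ^ d := by
      have h5 : B ⊆ univ.filter (fun S : Finset A => S.card ≤ d) := by
        intro S hS
        exact Finset.mem_filter.mpr ⟨Finset.mem_univ _, (Finset.mem_filter.mp hS).2.1⟩
      have h6 : (B.card : ℝ) ≤ ((univ.filter (fun S : Finset A => S.card ≤ d)).card : ℝ) := by
        exact_mod_cast Finset.card_le_card h5
      exact le_trans h6 (card_small A d)
    have h5 : 0 ≤ (τ * m) ^ t := by positivity
    calc ((univ.filter (fun w : Fin t → W => bad w)).card : ℝ)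
        ≤ (B.card : ℝ) * (τ * m) ^ t := le_trans h2 h3
      _ ≤ (a + 1) ^ d * (τ * m) ^ t := mul_le_mul_of_nonneg_right h4 h5
      _ = ((a + 1) ^ d * τ ^ t) * m ^ t := by rw [mul_pow]; ring
      _ ≤ p ^ t / 2 * m ^ t := mul_le_mul_of_nonneg_right hmain (by positivity)
  -- choose w
  have hex : ∃ w ∈ (univ : Finset (Fin t → W)), p ^ t / 2 * a ≤
      ((Aw w).card : ℝ) - a * (if bad w then (1 : ℝ) else 0) := by
    apply Finset.exists_le_of_sum_le Finset.univ_nonempty
    rw [Finset.sum_const, Finset.card_univ, nsmul_eq_mul, hN, Finset.sum_sub_distrib,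
      ← Finset.mul_sum]
    have h1 : ∑ w : Fin t → W, (if bad w then (1 : ℝ) else 0) =
        ((univ.filter (fun w : Fin t → W => bad w)).card : ℝ) := by
      rw [Finset.card_filter]; push_cast; rfl
    rw [h1]
    have h2 : a * ((univ.filter (fun w : Fin t → W => bad w)).card : ℝ) ≤
        a * (p ^ t / 2 * m ^ t) := mul_le_mul_of_nonneg_left hbad ha0
    have h3 : a * (p * m) ^ t = a * (p ^ t * m ^ t) := by rw [mul_pow]
    nlinarith [hlow]
  obtain ⟨w, -, hw⟩ := hex
  have hcard : ((Aw w).card : ℝ) ≤ a := by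
    rw [ha]; exact_mod_cast Finset.card_le_univ _
  have hgood : ¬ bad w := by
    intro hb
    rw [if_pos hb] at hw
    have : 0 < p ^ t / 2 * a := by positivity
    linarith
  rw [if_neg hgood] at hw
  refine ⟨Aw w, by linarith, ?_⟩
  intro S hS hSd
  by_contra hcon
  push Not at hcon
  exact hgood ⟨S, Finset.mem_filter.mpr ⟨Finset.mem_univ _, hSd, hcon⟩, hS⟩

end Pool.Agent.Helper80.PU
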