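import Pool.Agent.Helper34.PU.Goals
import Pool.Agent.Helper40.RamseyK

/-!
Packet RAMI for MP_8060f4_co: the inequality behind Ramsey's theorem.
-/

set_option autoImplicit false

open Finset
open scoped Classical

namespace Pool.Agent.Helper80.PU

open Pool.Agent.Helper34.PU

lemma ram_up (K r m N N' : ℕ) (hNN : N ≤ N')
    (hN : ∀ c : Finset (Fin N) → Fin r,
      ∃ g : Fin m → Fin N, StrictMono g ∧
        ∃ i, ∀ S : Finset (Fin m), S.card = K → c (S.image g) = i) :
    ∀ c : Finset (Fin N') → Fin r,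
      ∃ g : Fin m → Fin N', StrictMono g ∧
        ∃ i, ∀ S : Finset (Fin m), S.card = K → c (S.image g) = i := by
  intro c
  obtain ⟨g, hg, i, hi⟩ := hN (fun S => c (S.image (Fin.castLE hNN)))
  refine ⟨fun a => Fin.castLE hNN (g a), ?_, i, ?_⟩
  · intro a b hab
    have := hg hab
    exact this
  · intro S hS
    rw [← hi S hS, Finset.image_image]
    rfl

lemma claim (r s T0 h b : ℕ) (hr : 1 ≤ r) : ∃ Q k : ℕ, 1 ≤ Q ∧ 1 ≤ k ∧ b ≤ k ∧
    ∀ χ : Fin Q × Fin Q × Finset (Fin k) → Fin r,
      ∃ (c : Fin r) (g : Fin h → Fin Q) (j : Fin T0 → Fin k), StrictMono g ∧ StrictMono j ∧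
        ∀ a b' : Fin h, a < b' → ∀ U : Finset (Fin T0), U.card = s →
          χ (g a, g b', U.image j) = c := by
  obtain ⟨Q0, hQ0⟩ := Pool.Agent.Helper40.ramseyK_mono 2 r h hr
  have hQ := ram_up 2 r h Q0 (Q0 + 1) (Nat.le_succ _) hQ0
  set Q := Q0 + 1 with hQdef
  have : Nonempty (Fin r) := ⟨⟨0, hr⟩⟩
  have hpos : 1 ≤ Fintype.card (Fin Q × Fin Q → Fin r) := Fintype.card_pos
  obtain ⟨k0, hk0⟩ := Pool.Agent.Helper40.ramseyK_mono s _ T0 hpos
  refine ⟨Q, max (max k0 b) 1, by omega, le_max_right _ _,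
    le_trans (le_max_right _ _) (le_max_left _ _), ?_⟩
  have hk := ram_up s _ T0 k0 (max (max k0 b) 1)
    (le_trans (le_max_left _ _) (le_max_left _ _)) hk0
  intro χ
  obtain ⟨j, hj, i, hi⟩ := hk (fun U => Fintype.equivFin (Fin Q × Fin Q → Fin r)
    (fun pq => χ (pq.1, pq.2, U)))
  set χ0 : Fin Q × Fin Q → Fin r := (Fintype.equivFin (Fin Q × Fin Q → Fin r)).symm i with hχ0
  have hi' : ∀ U : Finset (Fin T0), U.card = s → ∀ p q, χ (p, q, U.image j) = χ0 (p, q) := by
    intro U hU p q
    have h1 := hi U hU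
    have h2 : (fun pq : Fin Q × Fin Q => χ (pq.1, pq.2, U.image j)) = χ0 := by
      rw [hχ0, ← h1, Equiv.symm_apply_apply]
    exact congrFun h2 (p, q)
  obtain ⟨g, hg, c, hc⟩ := hQ (fun S => if hS : S.Nonempty then χ0 (S.min' hS, S.max' hS)
    else ⟨0, hr⟩)
  refine ⟨c, g, j, hg, hj, ?_⟩
  intro a b' hab U hU
  rw [hi' U hU]
  have hcard : ({a, b'} : Finset (Fin h)).card = 2 := Finset.card_pair (ne_of_lt hab)
  have h1 := hc {a, b'} hcard
  have himg : ({a, b'} : Finset (Fin h)).image g = {g a, g b'} := by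
    rw [Finset.image_insert, Finset.image_singleton]
  have hne : (({a, b'} : Finset (Fin h)).image g).Nonempty := by
    rw [himg]; exact ⟨g a, by simp⟩
  rw [dif_pos hne] at h1
  have hlt : g a < g b' := hg hab
  have hmin : (({a, b'} : Finset (Fin h)).image g).min' hne = g a := by
    apply le_antisymm
    · apply Finset.min'_le
      rw [himg]; simp
    · apply Finset.le_min'
      intro y hy
      rw [himg] at hy
      simp only [Finset.mem_insert, Finset.mem_singleton] at hy
      rcases hy with rfl | rfl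
      · exact le_refl _
      · exact hlt.le
  have hmax : (({a, b'} : Finset (Fin h)).image g).max' hne = g b' := by
    apply le_antisymm
    · apply Finset.max'_le
      intro y hy
      rw [himg] at hy
      simp only [Finset.mem_insert, Finset.mem_singleton] at hy
      rcases hy with rfl | rfl
      · exact hlt.le
      · exact le_refl _
    · apply Finset.le_max'
      rw [himg]; simp
  rw [hmin, hmax] at h1
  exact h1

lemma sum_good {T : Type} [Fintype T] [DecidableEq T] (r : ℕ) (W : T → Fin r → ℝ)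
    (hW1 : ∀ t, ∑ c, W t c = 1) (S : Finset T) (c : Fin r) :
    (∑ χ : T → Fin r, if (∀ t ∈ S, χ t = c) then ∏ t, W t (χ t) else 0) = ∏ t ∈ S, W t c := by
  have h1 : ∀ χ : T → Fin r, (if (∀ t ∈ S, χ t = c) then ∏ t, W t (χ t) else 0) =
      ∏ t, (if t ∈ S then (if χ t = c then W t (χ t) else 0) else W t (χ t)) := by
    intro χ
    by_cases h : ∀ t ∈ S, χ t = c
    · rw [if_pos h]
      apply Finset.prod_congr rfl
      intro t _
      by_cases ht : t ∈ S
      · rw [if_pos ht, if_pos (h t ht)]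
      · rw [if_neg ht]
    · rw [if_neg h]
      push Not at h
      obtain ⟨t, ht, hne⟩ := h
      symm
      apply Finset.prod_eq_zero (Finset.mem_univ t)
      rw [if_pos ht, if_neg hne]
  rw [Finset.sum_congr rfl (fun χ _ => h1 χ)]
  have h2 := Finset.prod_univ_sum (fun _ : T => (Finset.univ : Finset (Fin r)))
    (fun t x => (if t ∈ S then (if x = c then W t x else 0) else W t x))
  rw [Fintype.piFinset_univ] at h2
  rw [← h2]
  have h3 : ∀ t : T, (∑ x : Fin r, (if t ∈ S then (if x = c then W t x else 0) else W t x)) =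
      if t ∈ S then W t c else 1 := by
    intro t
    by_cases ht : t ∈ S
    · simp only [if_pos ht]
      rw [Finset.sum_ite_eq' Finset.univ c]
      simp
    · simp only [if_neg ht]
      exact hW1 t
  rw [Finset.prod_congr rfl (fun t _ => h3 t)]
  rw [Finset.prod_ite_mem Finset.univ S (fun t => W t c), Finset.univ_inter]

theorem rami : RamiStmt := by
  intro r s T0 h b hr
  obtain ⟨Q, k, hQ, hk, hbk, hcl⟩ := claim r s T0 h b hr
  refine ⟨Q, k, hQ, hk, hbk, ?_⟩
  intro w hw hw1
  set W : Fin Q × Fin Q × Finset (Fin k) → Fin r → ℝ := fun t c => w c t.1 t.2.1 t.2.2 with hWdef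
  have hW0 : ∀ t c, 0 ≤ W t c := fun t c => hw _ _ _ _
  have hW1 : ∀ t, ∑ c, W t c = 1 := fun t => hw1 _ _ _
  -- the set of triples
  let IS : Finset ((Fin h × Fin h) × Finset (Fin T0)) :=
    (univ.filter (fun P : Fin h × Fin h => P.1 < P.2)) ×ˢ
      (univ.filter (fun U : Finset (Fin T0) => U.card = s))
  let φ : (Fin h → Fin Q) → (Fin T0 → Fin k) → ((Fin h × Fin h) × Finset (Fin T0)) →
      Fin Q × Fin Q × Finset (Fin k) := fun g j P => (g P.1.1, g P.1.2, P.2.image j)
  have hprod : ∀ (c : Fin r) (g : Fin h → Fin Q) (j : Fin T0 → Fin k), StrictMono g →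
      StrictMono j →
      (∏ P ∈ univ.filter (fun P : Fin h × Fin h => P.1 < P.2),
        ∏ U ∈ univ.filter (fun U : Finset (Fin T0) => U.card = s),
          w c (g P.1) (g P.2) (U.image j)) = ∏ t ∈ IS.image (φ g j), W t c := by
    intro c g j hg hj
    rw [Finset.prod_image]
    · rw [Finset.prod_product]
    · intro x _ y _ hxy
      simp only [φ, Prod.mk.injEq] at hxy
      obtain ⟨h1, h2, h3⟩ := hxy
      have e1 := hg.injective h1
      have e2 := hg.injective h2
      have e3 := Finset.image_injective hj.injective h3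
      exact Prod.ext (Prod.ext e1 e2) e3
  have hone : (1 : ℝ) = ∑ χ : Fin Q × Fin Q × Finset (Fin k) → Fin r, ∏ t, W t (χ t) := by
    have h2 := Finset.prod_univ_sum
      (fun _ : Fin Q × Fin Q × Finset (Fin k) => (Finset.univ : Finset (Fin r)))
      (fun t x => W t x)
    rw [Fintype.piFinset_univ] at h2
    rw [← h2]
    rw [Finset.prod_congr rfl (fun t _ => hW1 t)]
    simp
  have hbound : ∀ χ : Fin Q × Fin Q × Finset (Fin k) → Fin r,
      ∏ t, W t (χ t) ≤ ∑ c : Fin r, ∑ g ∈ univ.filter (fun g : Fin h → Fin Q => StrictMono g),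
        ∑ j ∈ univ.filter (fun j : Fin T0 → Fin k => StrictMono j),
          (if (∀ t ∈ IS.image (φ g j), χ t = c) then ∏ t, W t (χ t) else 0) := by
    intro χ
    have hP : 0 ≤ ∏ t, W t (χ t) := Finset.prod_nonneg (fun t _ => hW0 _ _)
    have hnn : ∀ (c : Fin r) (g : Fin h → Fin Q) (j : Fin T0 → Fin k),
        0 ≤ (if (∀ t ∈ IS.image (φ g j), χ t = c) then ∏ t, W t (χ t) else 0) := by
      intro c g j
      split_ifs
      · exact hP
      · exact le_refl _
    obtain ⟨c, g, j, hg, hj, hgood⟩ := hcl χ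
    have hG : ∀ t ∈ IS.image (φ g j), χ t = c := by
      intro t ht
      obtain ⟨P, hPm, rfl⟩ := Finset.mem_image.mp ht
      simp only [IS, Finset.mem_product, Finset.mem_filter, Finset.mem_univ, true_and] at hPm
      exact hgood _ _ hPm.1 _ hPm.2
    calc ∏ t, W t (χ t) = (if (∀ t ∈ IS.image (φ g j), χ t = c) then ∏ t, W t (χ t) else 0) := by
          rw [if_pos hG]
      _ ≤ ∑ j ∈ univ.filter (fun j : Fin T0 → Fin k => StrictMono j),
          (if (∀ t ∈ IS.image (φ g j), χ t = c) then ∏ t, W t (χ t) else 0) :=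
          Finset.single_le_sum (f := fun j => (if (∀ t ∈ IS.image (φ g j), χ t = c) then
            ∏ t, W t (χ t) else 0)) (fun j _ => hnn c g j) (by simp [hj])
      _ ≤ ∑ g ∈ univ.filter (fun g : Fin h → Fin Q => StrictMono g),
        ∑ j ∈ univ.filter (fun j : Fin T0 → Fin k => StrictMono j),
          (if (∀ t ∈ IS.image (φ g j), χ t = c) then ∏ t, W t (χ t) else 0) :=
          Finset.single_le_sum (f := fun g => ∑ j ∈ univ.filter
            (fun j : Fin T0 → Fin k => StrictMono j),
            (if (∀ t ∈ IS.image (φ g j), χ t = c) then ∏ t, W t (χ t) else 0))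
            (fun g _ => Finset.sum_nonneg (fun j _ => hnn c g j)) (by simp [hg])
      _ ≤ _ := Finset.single_le_sum (f := fun c => ∑ g ∈ univ.filter
            (fun g : Fin h → Fin Q => StrictMono g), ∑ j ∈ univ.filter
            (fun j : Fin T0 → Fin k => StrictMono j),
            (if (∀ t ∈ IS.image (φ g j), χ t = c) then ∏ t, W t (χ t) else 0))
            (fun c _ => Finset.sum_nonneg (fun g _ => Finset.sum_nonneg (fun j _ => hnn c g j)))
            (Finset.mem_univ c)
  calc (1 : ℝ) = ∑ χ : Fin Q × Fin Q × Finset (Fin k) → Fin r, ∏ t, W t (χ t) := hone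
    _ ≤ ∑ χ : Fin Q × Fin Q × Finset (Fin k) → Fin r, ∑ c : Fin r,
        ∑ g ∈ univ.filter (fun g : Fin h → Fin Q => StrictMono g),
        ∑ j ∈ univ.filter (fun j : Fin T0 → Fin k => StrictMono j),
          (if (∀ t ∈ IS.image (φ g j), χ t = c) then ∏ t, W t (χ t) else 0) :=
        Finset.sum_le_sum (fun χ _ => hbound χ)
    _ = ∑ c : Fin r, ∑ χ : Fin Q × Fin Q × Finset (Fin k) → Fin r,
        ∑ g ∈ univ.filter (fun g : Fin h → Fin Q => StrictMono g),
        ∑ j ∈ univ.filter (fun j : Fin T0 → Fin k => StrictMono j),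
          (if (∀ t ∈ IS.image (φ g j), χ t = c) then ∏ t, W t (χ t) else 0) :=
        Finset.sum_comm
    _ = _ := by
        apply Finset.sum_congr rfl
        intro c _
        rw [Finset.sum_comm]
        apply Finset.sum_congr rfl
        intro g hg
        rw [Finset.sum_comm]
        apply Finset.sum_congr rfl
        intro j hj
        rw [sum_good r W hW1 (IS.image (φ g j)) c]
        exact (hprod c g j (Finset.mem_filter.mp hg).2 (Finset.mem_filter.mp hj).2).symm

end Pool.Agent.Helper80.PU
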